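import Pool.Agent.Helper77.OC.St

/-!
# OC MODULE C: four independent vertices
-/

set_option autoImplicit false

namespace Pool.Agent.Helper2.OC.C

open Pool.Agent.Helper35.PM Pool.Agent.Helper77.HY Pool.Agent.Helper77.OC

theorem main (hC1 : StC1) (hC2 : StC2) (hC3 : StC3) : StC := by
  intro V _ _ G p S W hSW hp hS4 hind hdW hU L A hL
  by_cases hsum : ∑ r ∈ W \ S, (dg G r S - 1) ≤ 1
  · exact hC2 V G p S W hSW hp hind hsum L A hL
  · by_cases h3 : ∃ U : Finset V, S ⊆ U ∧ U ⊂ W ∧ df G U = 3 ∧ ∀ r ∈ U, r ∉ S → dg G r S ≤ 1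
    · obtain ⟨U, hSU, hUW, hdU, hr⟩ := h3
      refine hC3 V G p S U W hSU hUW.subset hp hind hr ?_ ?_ ?_ L A hL
      · have hex : ∃ r ∈ W \ S, dg G r S - 1 ≠ 0 := by
          by_contra hne
          push Not at hne
          apply hsum
          rw [Finset.sum_eq_zero hne]
          omega
        obtain ⟨y, hy, hy2⟩ := hex
        rw [Finset.mem_sdiff] at hy
        refine ⟨y, hy.1, ?_, by omega⟩
        intro hyU
        have := hr y hyU hy.2
        omega
      · intro U' hUU' hU'W
        rw [hdU]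
        exact hU U' (hSU.trans hUU') hU'W
      · rw [hdU, hdW]
        norm_num
    · refine hC1 V G p S W hSW hp hS4 hind (by rw [hdW]) hU (by omega) ?_ L A hL
      intro U hSU hUW hdU
      by_contra hne
      apply h3
      refine ⟨U, hSU, hUW, hdU, ?_⟩
      intro r hrU hrS
      by_contra hlt
      exact hne ⟨r, hrU, hrS, by omega⟩

end Pool.Agent.Helper2.OC.C
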