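import Pool.Agent.Helper77.OC.St

/-!
# OC MODULE C2: few common neighbours
-/

set_option autoImplicit false

namespace Pool.Agent.Helper2.OC.C2

open Pool.Agent.Helper35.PM Pool.Agent.Helper77.HY Pool.Agent.Helper77.OC

theorem main (hFr : StFr) : StC2 := by
  intro V _ _ G p S W hSW hp hind hsum L A hL
  set Y : Finset V := (W \ S).filter (fun r => p r = false) with hY
  have hYm : ∀ r, r ∈ Y ↔ r ∈ W ∧ r ∉ S ∧ p r = false := by
    intro r
    rw [hY, Finset.mem_filter, Finset.mem_sdiff]
    tauto
  -- two different vertices with two neighbours in S do not exist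
  have huniq : ∀ b ∈ Y, ∀ c ∈ Y, 2 ≤ dg G b S → 2 ≤ dg G c S → b = c := by
    intro b hb c hc hb2 hc2
    by_contra hne
    have hsub : ({b, c} : Finset V) ⊆ W \ S := by
      intro x hx
      rw [Finset.mem_insert, Finset.mem_singleton] at hx
      rw [Finset.mem_sdiff]
      rcases hx with hx | hx
      · rw [hx]
        exact ⟨((hYm b).mp hb).1, ((hYm b).mp hb).2.1⟩
      · rw [hx]
        exact ⟨((hYm c).mp hc).1, ((hYm c).mp hc).2.1⟩
    have h1 : ∑ r ∈ ({b, c} : Finset V), (dg G r S - 1) ≤ ∑ r ∈ W \ S, (dg G r S - 1) :=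
      Finset.sum_le_sum_of_subset hsub
    rw [Finset.sum_pair hne] at h1
    omega
  have hYY : ∀ a ∈ Y, ∀ b ∈ Y, ¬ G.Adj a b := by
    intro a ha b hb hab
    have ha' := (hYm a).mp ha
    have hb' := (hYm b).mp hb
    exact hp a ha'.1 ha'.2.1 b hb'.1 hb'.2.1 hab (by rw [ha'.2.2, hb'.2.2])
  have hforest : Forest G ((S ∪ Y : Finset V) : Set V) := by
    intro T hT hTne
    have hTm : ∀ x ∈ T, x ∈ S ∨ x ∈ Y := by
      intro x hx
      have := hT hx
      rw [Finset.mem_coe, Finset.mem_union] at this
      exact this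
    by_cases hA : ∃ r ∈ T, r ∈ Y ∧ dg G r S ≤ 1
    · obtain ⟨r, hrT, hrY, hr1⟩ := hA
      refine ⟨r, hrT, ?_⟩
      intro b hb c hc hrb hrc
      have hbS : b ∈ S := by
        rcases hTm b hb with h | h
        · exact h
        · exact absurd hrb (hYY r hrY b h)
      have hcS : c ∈ S := by
        rcases hTm c hc with h | h
        · exact h
        · exact absurd hrc (hYY r hrY c h)
      have hfin : ({u : V | u ∈ S ∧ G.Adj r u}).Finite := Set.toFinite _
      have h1 := (Set.ncard_le_one hfin).mp hr1
      exact h1 b ⟨hbS, hrb⟩ c ⟨hcS, hrc⟩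
    · have hA' : ∀ r ∈ T, r ∈ Y → 2 ≤ dg G r S := by
        intro r hrT hrY
        by_contra hlt
        exact hA ⟨r, hrT, hrY, by omega⟩
      by_cases hB : ∃ a ∈ T, a ∈ S
      · obtain ⟨a, haT, haS⟩ := hB
        refine ⟨a, haT, ?_⟩
        intro b hb c hc hab hac
        have hbY : b ∈ Y := by
          rcases hTm b hb with h | h
          · exact absurd hab (hind a haS b h)
          · exact h
        have hcY : c ∈ Y := by
          rcases hTm c hc with h | h
          · exact absurd hac (hind a haS c h)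
          · exact h
        exact huniq b hbY c hcY (hA' b hb hbY) (hA' c hc hcY)
      · obtain ⟨a, haT⟩ := hTne
        refine ⟨a, haT, ?_⟩
        intro b hb c hc hab hac
        exfalso
        have haY : a ∈ Y := by
          rcases hTm a haT with h | h
          · exact absurd ⟨a, haT, h⟩ hB
          · exact h
        have hbY : b ∈ Y := by
          rcases hTm b hb with h | h
          · exact absurd ⟨b, hb, h⟩ hB
          · exact h
        exact hYY a haY b hbY hab
  obtain ⟨c0, hc0⟩ := hFr.1 V G (S ∪ Y) (fun v => L v \ A) hforest (by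
    intro v _
    exact (hL v).2.symm.le)
  obtain ⟨hc1, hc2⟩ := hc0
  -- the colour in A
  have hex : ∀ v, ∃ a, a ∈ L v ∩ A := by
    intro v
    have h1 : 0 < (L v ∩ A).card := by
      rw [(hL v).1]
      exact Nat.one_pos
    exact Finset.card_pos.mp h1
  choose al hal using hex
  have hc1' : ∀ v ∈ S ∪ Y, c0 v ∈ L v ∧ c0 v ∉ A := by
    intro v hv
    have h1 : c0 v ∈ L v \ A := hc1 v hv
    rw [Finset.mem_sdiff] at h1
    exact h1
  have hcls : ∀ v ∈ W, (v ∉ S ∧ p v = true) ∨ v ∈ S ∪ Y := by
    intro v hv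
    by_cases hvS : v ∈ S
    · right
      exact Finset.mem_union_left _ hvS
    · cases hpv : p v
      · right
        exact Finset.mem_union_right _ ((hYm v).mpr ⟨hv, hvS, hpv⟩)
      · left
        exact ⟨hvS, rfl⟩
  have hdisj : ∀ v, v ∈ S ∪ Y → ¬ (v ∉ S ∧ p v = true) := by
    intro v hv h
    rw [Finset.mem_union] at hv
    rcases hv with hv | hv
    · exact h.1 hv
    · have := ((hYm v).mp hv).2.2
      rw [h.2] at this
      exact absurd this (by decide)
  refine ⟨fun v => if v ∉ S ∧ p v = true then al v else c0 v, ?_, ?_⟩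
  · intro v hv
    show (if v ∉ S ∧ p v = true then al v else c0 v) ∈ L v
    rcases hcls v hv with h | h
    · rw [if_pos h]
      exact (Finset.mem_inter.mp (hal v)).1
    · rw [if_neg (hdisj v h)]
      exact (hc1' v h).1
  · intro u hu v hv huv
    show (if u ∉ S ∧ p u = true then al u else c0 u) ≠ (if v ∉ S ∧ p v = true then al v else c0 v)
    rcases hcls u hu with h | h <;> rcases hcls v hv with h' | h'
    · exfalso
      exact hp u hu h.1 v hv h'.1 huv (by rw [h.2, h'.2])
    · rw [if_pos h, if_neg (hdisj v h')]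
      intro he
      apply (hc1' v h').2
      rw [← he]
      exact (Finset.mem_inter.mp (hal u)).2
    · rw [if_neg (hdisj u h), if_pos h']
      intro he
      apply (hc1' u h).2
      rw [he]
      exact (Finset.mem_inter.mp (hal v)).2
    · rw [if_neg (hdisj u h), if_neg (hdisj v h')]
      exact hc2 u h v h' huv

end Pool.Agent.Helper2.OC.C2
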