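import Pool.Agent.Helper89.OC.St3
import Pool.Agent.Helper94.YF.M_RAT

/-! # OC module KRO: an algebraic integer all of whose images have modulus `< 1` is zero -/

set_option autoImplicit false

namespace Pool.Agent.Helper2.OC

open Pool.Agent.Helper89.OC

theorem hKRO : StKRO := by
  intro α hα hlt
  obtain ⟨f, hf, hroot⟩ := hα
  have hf0 : f.map (algebraMap ℤ ℂ) ≠ 0 := (hf.map (algebraMap ℤ ℂ)).ne_zero
  have hσroot : ∀ σ : ℂ ≃+* ℂ, σ α ∈ (f.map (algebraMap ℤ ℂ)).roots := by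
    intro σ
    rw [Polynomial.mem_roots hf0, Polynomial.IsRoot.def, Polynomial.eval_map]
    have h1 := congrArg (σ : ℂ →+* ℂ) hroot
    rw [Polynomial.hom_eval₂, map_zero] at h1
    have h2 : (σ : ℂ →+* ℂ).comp (algebraMap ℤ ℂ) = algebraMap ℤ ℂ := RingHom.ext_int _ _
    rw [h2] at h1
    simpa using h1
  have hfin : (Set.range fun σ : ℂ ≃+* ℂ => σ α).Finite := by
    classical
    refine ((f.map (algebraMap ℤ ℂ)).roots.toFinset.finite_toSet).subset ?_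
    rintro _ ⟨σ, rfl⟩
    simpa using hσroot σ
  classical
  set S : Finset ℂ := hfin.toFinset with hS
  have hmem : ∀ z : ℂ, z ∈ S ↔ ∃ σ : ℂ ≃+* ℂ, σ α = z := by
    intro z
    simp [hS]
  set P : ℂ := ∏ β ∈ S, β with hP
  have hPint : IsIntegral ℤ P := by
    refine IsIntegral.prod _ ?_
    intro β hβ
    obtain ⟨σ, rfl⟩ := (hmem β).1 hβ
    exact ⟨f, hf, by
      have h1 := congrArg (σ : ℂ →+* ℂ) hroot
      rw [Polynomial.hom_eval₂, map_zero] at h1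
      have h2 : (σ : ℂ →+* ℂ).comp (algebraMap ℤ ℂ) = algebraMap ℤ ℂ := RingHom.ext_int _ _
      rw [h2] at h1
      simpa using h1⟩
  have hPfix : ∀ τ : ℂ ≃+* ℂ, τ P = P := by
    intro τ
    rw [hP, map_prod]
    refine Finset.prod_nbij (fun z => τ z) ?_ ?_ ?_ ?_
    · intro z hz
      obtain ⟨σ, rfl⟩ := (hmem z).1 hz
      exact (hmem _).2 ⟨σ.trans τ, rfl⟩
    · exact fun x _ y _ h => τ.injective h
    · intro z hz
      obtain ⟨σ, rfl⟩ := (hmem z).1 (by simpa using hz)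
      exact ⟨τ.symm (σ α), by
        simpa using (hmem _).2 ⟨σ.trans τ.symm, rfl⟩, by simp⟩
    · intro z _
      rfl
  obtain ⟨m, hm⟩ := Pool.Agent.Helper94.YF.hRAT'.1 P hPint hPfix
  have hSne : S.Nonempty := ⟨α, (hmem α).2 ⟨RingEquiv.refl ℂ, rfl⟩⟩
  have hPlt : ‖P‖ < 1 := by
    rw [hP, norm_prod]
    have h1 : ∀ β ∈ S, ‖β‖ < 1 := by
      intro β hβ
      obtain ⟨σ, rfl⟩ := (hmem β).1 hβ
      exact hlt σ
    obtain ⟨β, hβ⟩ := hSne
    rw [← Finset.mul_prod_erase S _ hβ]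
    have h2 : ∏ x ∈ S.erase β, ‖x‖ ≤ 1 :=
      Finset.prod_le_one (fun x _ => norm_nonneg x)
        (fun x hx => (h1 x (Finset.mem_of_mem_erase hx)).le)
    have h3 : 0 ≤ ∏ x ∈ S.erase β, ‖x‖ := Finset.prod_nonneg fun x _ => norm_nonneg x
    nlinarith [h1 β hβ, norm_nonneg β]
  have hm0 : m = 0 := by
    rw [← hm] at hPlt
    have h1 : |(m : ℝ)| < 1 := by simpa using hPlt
    have h2 : |m| < 1 := by exact_mod_cast h1
    exact Int.abs_lt_one_iff.1 h2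
  have hP0 : P = 0 := by rw [← hm, hm0]; simp
  obtain ⟨β, hβ, hβ0⟩ := Finset.prod_eq_zero_iff.1 (hP ▸ hP0)
  obtain ⟨σ, hσ⟩ := (hmem β).1 hβ
  rw [hβ0] at hσ
  exact (map_eq_zero_iff σ σ.injective).1 hσ

end Pool.Agent.Helper2.OC
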